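import Pool.Agent.Q64.RL.Alg
import Pool.Agent.Q64.RL.Flt
import Pool.Agent.Q64.RL.Int
import Pool.Agent.Q64.RL.Trd
import Pool.Agent.Q64.RL.Res
import Pool.Agent.Q64.RL.Exv
import Pool.Agent.Q64.RL.Der
import Pool.Agent.Q64.RL.Spe
import Pool.Agent.Q280.RL.Lin
import Pool.Agent.Q280.RL.Coo
import Pool.Agent.Q280.RL.Zfa
import Pool.Agent.Q280.RL.Mod
import Pool.Agent.Q280.RL.Pol
import Pool.Agent.Q280.RL.Tra
import Pool.Agent.Q46.RL.Ded
import Pool.Agent.Q277.RL.STP
import Pool.Agent.Q277.RL.TYA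
import Pool.Agent.Q81.RL.Rkf
import Pool.Agent.Q81.RL.Tut
import Pool.Agent.Q81.RL.Dis
import Pool.Agent.Q81.RL.Bet
import Pool.Agent.Q111.RL.Tyb
import Pool.Agent.Q111.RL.Geo
import Pool.Agent.Q111.RL.Mai
import Pool.Agent.Q198.RL.Bir
import Pool.Agent.Q198.RL.Feq

/-!
MP_0aec2a_ag: if the matroid of the linear space `L` is connected, then the dual variety of the
reciprocal linear space `L⁻¹` is a hypersurface of degree `2 ^ d * β(L)`.
-/

set_option autoImplicit false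

namespace Pool.Agent.Results.MP_0aec2a_ag.DualDegree

open MvPolynomial Finset
open Pool.Agent.Q64.RL (Cl Tan Smooth Dual)

variable {d n : ℕ}

/-- The rank function `r(S) = dim span {ℓ i : i ∈ S}` of the matroid `M(L)`. -/
noncomputable def rank (l : Fin (n + 1) → ((Fin (d + 1) → ℂ) →ₗ[ℂ] ℂ))
    (S : Finset (Fin (n + 1))) : ℕ :=
  Module.finrank ℂ (Submodule.span ℂ (l '' S))

/-- The beta invariant `(-1) ^ r(E) ∑_S (-1) ^ |S| r(S)`. -/
noncomputable def betaInvariant (l : Fin (n + 1) → ((Fin (d + 1) → ℂ) →ₗ[ℂ] ℂ)) : ℤ :=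
  (-1) ^ rank l univ * ∑ S : Finset (Fin (n + 1)), (-1) ^ S.card * (rank l S : ℤ)

/-- The matroid is connected: `r(S) + r(E \ S) ≠ r(E)` for all proper nonempty subsets `S`. -/
def Connected (l : Fin (n + 1) → ((Fin (d + 1) → ℂ) →ₗ[ℂ] ℂ)) : Prop :=
  ∀ S : Finset (Fin (n + 1)), S.Nonempty → Sᶜ.Nonempty → rank l S + rank l Sᶜ ≠ rank l univ

/-- The reciprocal linear space: the closure of the set of the points
`(1 / ℓ 0 (t) : ⋯ : 1 / ℓ n (t))`. -/
def Reciprocal (l : Fin (n + 1) → ((Fin (d + 1) → ℂ) →ₗ[ℂ] ℂ)) : Set (Fin (n + 1) → ℂ) :=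
  Cl {z | ∃ t : Fin (d + 1) → ℂ, (∀ i, l i t ≠ 0) ∧ z = fun i => (l i t)⁻¹}

/-- Let `ℓ 0, …, ℓ n` be linear forms on `ℂ^(d+1)` which span its dual, and let the matroid
`M(L)` be connected. Then the dual variety of `L⁻¹` is the hypersurface given by an irreducible
form `F` of degree `2 ^ d * β(L)`.

`Cl A`: the Zariski closure in projective space (sets of nonzero vectors). `Tan X p`: the embedded
tangent space of `X` at `p`, the common kernel of the differentials at `p` of all forms which vanish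
on `X`. `Smooth X p`: `p` is a point of `X` at which `dim Tan X p` is minimal; for `X = L⁻¹` the
minimum is `d + 1` (as vector space dimension). `Dual X`: the closure of the set of all hyperplanes
`y` which contain `Tan X p` for a smooth point `p` of `X`. -/
theorem result (d n : ℕ) (l : Fin (n + 1) → ((Fin (d + 1) → ℂ) →ₗ[ℂ] ℂ))
    (hspan : Submodule.span ℂ (Set.range l) = ⊤) (hconn : Connected l) :
    ∃ (N : ℕ) (F : MvPolynomial (Fin (n + 1)) ℂ), (N : ℤ) = 2 ^ d * betaInvariant l ∧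
      Irreducible F ∧ F.IsHomogeneous N ∧
      (∀ p, Smooth (Reciprocal l) p ↔
        p ∈ Reciprocal l ∧ Module.finrank ℂ (Tan (Reciprocal l) p) = d + 1) ∧
      Dual (Reciprocal l) = {y | y ≠ 0 ∧ eval y F = 0} ∧
      ∀ (G : MvPolynomial (Fin (n + 1)) ℂ) (m : ℕ), G.IsHomogeneous m → 0 < m →
        ((∀ y ∈ Dual (Reciprocal l), eval y G = 0) ↔ F ∣ G) := by
  have hperp := Pool.Agent.Q280.RL.perp
  have hbas := Pool.Agent.Q280.RL.bas
  have hcoo := Pool.Agent.Q280.RL.coo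
  have htrd := Pool.Agent.Q64.RL.trd
  have hzfa := Pool.Agent.Q280.RL.zfa htrd hcoo
  have hmod := Pool.Agent.Q280.RL.mod hbas hcoo
  have hpol := Pool.Agent.Q280.RL.pol htrd hbas hcoo
  have hplc := Pool.Agent.Q64.RL.plc
  have hplb := Pool.Agent.Q64.RL.plb
  have hflt := Pool.Agent.Q64.RL.flt hplc hplb hperp hpol
  have hint := Pool.Agent.Q64.RL.intg hperp
  have hres := Pool.Agent.Q64.RL.res
  have hgdi := Pool.Agent.Q64.RL.gdi
  have hexv := Pool.Agent.Q64.RL.exv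
  have hded := Pool.Agent.Q46.RL.ded hres hexv
  have htya := Pool.Agent.Q277.RL.tya hplc hplb htrd hperp hbas hcoo hzfa hres hexv
  have htyb := Pool.Agent.Q111.RL.TB.tyb hplc hplb htrd hperp hbas hcoo hzfa hres hexv
  have hdis := Pool.Agent.Q81.RL.dis hpol
  have hstp := Pool.Agent.Q277.RL.stp hplc htrd hmod hflt hint hgdi hded htya htyb hbas hzfa
  have hrkf := Pool.Agent.Q81.RL.rkf
  have hbet := Pool.Agent.Q81.RL.bet hrkf
  have htut := Pool.Agent.Q81.RL.tut hrkf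
  have hmai := Pool.Agent.Q111.RL.mai hperp hstp hdis htut hbet hrkf
  have hder := Pool.Agent.Q64.RL.der hbas hcoo hzfa
  have hbir := Pool.Agent.Q198.RL.bir htrd hbas hzfa hder
  have hfeq := Pool.Agent.Q198.RL.feq htrd hint hbas hcoo hzfa hbir
  have hspe := Pool.Agent.Q64.RL.spe hperp hbas hcoo hzfa
  have halg := Pool.Agent.Q64.RL.alg hmai hmod htut hspe hfeq
  have hgeo := Pool.Agent.Q111.RL.geo hperp
  let L : Submodule ℂ (Fin (n + 1) → ℂ) := LinearMap.range (LinearMap.pi l)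
  have hrk : ∀ S, Pool.Agent.Q64.RL.rk L S = rank l S := fun S =>
    Pool.Agent.Q280.RL.tra _ _ l S
  have huniv : rank l univ = d + 1 := by
    unfold rank
    rw [Finset.coe_univ, Set.image_univ, hspan, finrank_top, Subspace.dual_finrank_eq]
    simp
  have hL : Pool.Agent.Q64.RL.Conn L := by
    refine ⟨?_, fun S h1 h2 => ?_⟩
    · intro h0
      have h1 := hrk univ
      rw [huniv, (hrkf ℂ _ L).2.1, h0] at h1
      simp at h1
    · rw [hrk, hrk, hrk]
      exact hconn S h1 h2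
  obtain ⟨N, F, hN, hFi, hFh, hF⟩ := halg _ L hL
  have hbeta : Pool.Agent.Q64.RL.beta L = betaInvariant l := by
    unfold Pool.Agent.Q64.RL.beta betaInvariant
    simp only [hrk]
  rw [hrk, huniv, hbeta, Nat.add_sub_cancel] at hN
  have hrec : Reciprocal l = Pool.Agent.Q64.RL.Recip L := by
    unfold Reciprocal Pool.Agent.Q64.RL.Recip
    congr 1
    ext z
    constructor
    · rintro ⟨t, h1, h2⟩
      exact ⟨fun i => l i t, ⟨t, rfl⟩, h1, h2⟩
    · rintro ⟨a, ⟨t, rfl⟩, h1, h2⟩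
      exact ⟨t, h1, h2⟩
  obtain ⟨h1, h2⟩ := hgeo _ L (hL.nonloop htut) N F hFi hFh hF
  have hfL : Module.finrank ℂ L = d + 1 := by
    rw [← (hrkf ℂ _ L).2.1, hrk, huniv]
  obtain ⟨a, ha, ha0⟩ : ∃ a ∈ L, ∀ i, a i ≠ 0 := by
    by_contra hcon
    push Not at hcon
    have h3 : F ∣ 1 := (hF 1).2 fun a ha h4 => by
      obtain ⟨i, hi⟩ := hcon a ha
      exact absurd hi (h4 i)
    exact hFi.not_isUnit (isUnit_of_dvd_one h3)
  have hι : Nonempty (Fin (n + 1)) := ⟨0⟩
  have hP := Pool.Agent.Q111.RL.smooth_P hperp L hι a ha ha0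
  have hPd := Pool.Agent.Q111.RL.finrank_tan_P hperp L hι a ha ha0
  rw [hfL] at hPd
  rw [hrec]
  refine ⟨N, F, hN, hFi, hFh, fun p => ⟨fun hp => ⟨hp.1, ?_⟩, fun hp => ⟨hp.1, fun q hq => ?_⟩⟩,
    h1, h2⟩
  · have h3 := hp.2 _ hP.1
    have h4 := Pool.Agent.Q111.RL.finrank_tan_le hperp L hι p hp.1
    omega
  · have h4 := Pool.Agent.Q111.RL.finrank_tan_le hperp L hι q hq
    omega

end Pool.Agent.Results.MP_0aec2a_ag.DualDegree
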